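import Mathlib

/-!
Extension of a finite set of prescribed values to a conjugacy between two permutations all of
whose cycles have the same length.
-/

namespace Q33.RF

theorem inj_opt {Ω ι : Type} (M : ℕ) (σ : Equiv.Perm Ω)
    (h1 : σ ^ M = 1) (h2 : ∀ x, ∀ k, 0 < k → k < M → (σ ^ k) x ≠ x) (x : ι → Ω)
    (hx : Function.Injective (fun p : ι × Fin M => (σ ^ (p.2 : ℕ)) (x p.1))) (z : Ω)
    (hz : ∀ p : ι × Fin M, (σ ^ (p.2 : ℕ)) (x p.1) ≠ z) :
    Function.Injective (fun p : Option ι × Fin M => (σ ^ (p.2 : ℕ)) ((p.1.elim z x))) := by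
  have key : ∀ (i : ι) (k l : Fin M), (σ ^ (k : ℕ)) (x i) ≠ (σ ^ (l : ℕ)) z := by
    intro i k l h
    have hM : 0 < M := lt_of_le_of_lt (Nat.zero_le _) k.2
    have h3 : (σ ^ (M - (l : ℕ))) ((σ ^ (k : ℕ)) (x i)) = z := by
      rw [h, ← Equiv.Perm.mul_apply, ← pow_add, Nat.sub_add_cancel l.2.le, h1]
      rfl
    rw [← Equiv.Perm.mul_apply, ← pow_add, pow_eq_pow_mod _ h1] at h3
    exact hz (i, ⟨(M - (l : ℕ) + k) % M, Nat.mod_lt _ hM⟩) h3
  have key2 : ∀ (k l : Fin M), (k : ℕ) < l → (σ ^ (k : ℕ)) z ≠ (σ ^ (l : ℕ)) z := by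
    intro k l hkl h
    have h3 : (σ ^ ((l : ℕ) - (k : ℕ))) z = z := by
      apply (σ ^ (k : ℕ)).injective
      rw [← Equiv.Perm.mul_apply, ← pow_add, Nat.add_sub_cancel' hkl.le, h]
    exact h2 z _ (by omega) (by omega) h3
  rintro ⟨_ | i, k⟩ ⟨_ | j, l⟩ h
  · rcases lt_trichotomy (k : ℕ) l with hkl | hkl | hkl
    · exact absurd h (key2 k l hkl)
    · rw [Fin.ext hkl]
    · exact absurd h.symm (key2 l k hkl)
  · exact absurd h.symm (key j l k)
  · exact absurd h (key i k l)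
  · have := @hx (i, k) (j, l) h
    simp only [Prod.mk.injEq] at this ⊢
    exact ⟨congrArg some this.1, this.2⟩

/-- extension of prescribed values to a conjugacy -/
theorem extend {Ω : Type} [Finite Ω] (M : ℕ) (hM : 0 < M) (σ σ' : Equiv.Perm Ω)
    (h1 : σ ^ M = 1) (h1' : σ' ^ M = 1) (h2 : ∀ x, ∀ k, 0 < k → k < M → (σ ^ k) x ≠ x)
    (h2' : ∀ x, ∀ k, 0 < k → k < M → (σ' ^ k) x ≠ x) (n : ℕ) :
    ∀ (ι : Type) [Finite ι] (x y : ι → Ω), Nat.card Ω ≤ Nat.card ι * M + n →
      Function.Injective (fun p : ι × Fin M => (σ ^ (p.2 : ℕ)) (x p.1)) →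
      Function.Injective (fun p : ι × Fin M => (σ' ^ (p.2 : ℕ)) (y p.1)) →
      ∃ τ : Equiv.Perm Ω, (∀ z, τ (σ z) = σ' (τ z)) ∧ ∀ i, τ (x i) = y i := by
  induction n with
  | zero =>
    intro ι _ x y hcard hx hy
    have hc : Nat.card (ι × Fin M) = Nat.card ι * M := by rw [Nat.card_prod, Nat.card_fin]
    have h4 : Nat.card (ι × Fin M) ≤ Nat.card Ω := Nat.card_le_card_of_injective _ hx
    have h5 : Nat.card (ι × Fin M) = Nat.card Ω := by omega
    have bx := (Function.Injective.bijective_of_nat_card_le hx h5.ge)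
    have by' := (Function.Injective.bijective_of_nat_card_le hy h5.ge)
    set ex := Equiv.ofBijective _ bx with hex
    set ey := Equiv.ofBijective _ by' with hey
    have key : ∀ (k : ℕ) (i : ι), (ex.symm.trans ey) ((σ ^ k) (x i)) = (σ' ^ k) (y i) := by
      intro k i
      rw [pow_eq_pow_mod k h1, pow_eq_pow_mod k h1']
      have e1 : (σ ^ (k % M)) (x i) = ex (i, ⟨k % M, Nat.mod_lt _ hM⟩) := rfl
      rw [Equiv.trans_apply, e1, Equiv.symm_apply_apply]
      rfl
    refine ⟨ex.symm.trans ey, fun z => ?_, fun i => ?_⟩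
    · obtain ⟨⟨i, k⟩, rfl⟩ := ex.surjective z
      have e1 : ex (i, k) = (σ ^ (k : ℕ)) (x i) := rfl
      rw [e1, key, ← Equiv.Perm.mul_apply σ, ← Equiv.Perm.mul_apply σ', ← pow_succ', ← pow_succ',
        key]
    · have := key 0 i
      simpa using this
  | succ n ih =>
    intro ι _ x y hcard hx hy
    have hc : Nat.card (ι × Fin M) = Nat.card ι * M := by rw [Nat.card_prod, Nat.card_fin]
    have h4 : Nat.card (ι × Fin M) ≤ Nat.card Ω := Nat.card_le_card_of_injective _ hx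
    rcases h4.lt_or_eq with h5 | h5
    · have nsx : ¬ Function.Surjective (fun p : ι × Fin M => (σ ^ (p.2 : ℕ)) (x p.1)) := by
        intro hs
        have := Nat.card_le_card_of_surjective _ hs
        omega
      have nsy : ¬ Function.Surjective (fun p : ι × Fin M => (σ' ^ (p.2 : ℕ)) (y p.1)) := by
        intro hs
        have := Nat.card_le_card_of_surjective _ hs
        omega
      unfold Function.Surjective at nsx nsy
      push Not at nsx nsy
      obtain ⟨z, hz⟩ := nsx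
      obtain ⟨z', hz'⟩ := nsy
      obtain ⟨τ, hτ1, hτ2⟩ := ih (Option ι) (fun o => o.elim z x) (fun o => o.elim z' y) (by
        rw [Finite.card_option]
        nlinarith) (inj_opt M σ h1 h2 x hx z hz) (inj_opt M σ' h1' h2' y hy z' hz')
      exact ⟨τ, hτ1, fun i => hτ2 (some i)⟩
    · exact ih ι x y (by omega) hx hy

end Q33.RF
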