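import Pool.Agent.H26R2.Basic
import Pool.Agent.Helper867.PF.FreeRes
import Pool.Agent.Q33.RF.Extend

/-!
The one-relator group `⟨a, b, t | t a t⁻¹ = [a, b⁻¹ a b]⟩`.
-/

namespace Q33.RF

/-- the free group on `a`, `b` -/
abbrev F : Type := FreeGroup (Fin 2)

/-- `a` -/
def ga : F := FreeGroup.of 0

/-- `b` -/
def gb : F := FreeGroup.of 1

/-- `w = [a, b⁻¹ a b]` -/
def gw : F := ga * (gb⁻¹ * ga * gb) * ga⁻¹ * (gb⁻¹ * ga * gb)⁻¹

/-- the embedding of the free group of rank two -/
def emb : F →* FreeGroup (Fin 3) := FreeGroup.lift ![FreeGroup.of 0, FreeGroup.of 1]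

/-- the relator -/
def rel : FreeGroup (Fin 3) := FreeGroup.of 2 * emb ga * (FreeGroup.of 2)⁻¹ * (emb gw)⁻¹

/-- the group -/
abbrev G : Type := PresentedGroup ({rel} : Set (FreeGroup (Fin 3)))

/-- the projection -/
def pr : FreeGroup (Fin 3) →* G := PresentedGroup.mk ({rel} : Set (FreeGroup (Fin 3)))

/-- the map from the free group on `a`, `b` -/
def ph : F →* G := pr.comp emb

/-- the stable letter -/
def T : G := pr (FreeGroup.of 2)

theorem pr_rel : pr rel = 1 := by
  apply PresentedGroup.one_of_mem
  simp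

theorem T_rel : T * ph ga * T⁻¹ = ph gw := by
  have h : pr (FreeGroup.of 2 * emb ga * (FreeGroup.of 2)⁻¹ * (emb gw)⁻¹) = 1 := pr_rel
  rw [map_mul, map_mul, map_mul, map_inv, map_inv, mul_inv_eq_one] at h
  exact h

/-- homomorphisms from the group -/
theorem exists_lift {P : Type} [Group P] (π : F →* P) (τ : P) (h : τ * π ga * τ⁻¹ = π gw) :
    ∃ Φ : G →* P, (∀ f, Φ (ph f) = π f) ∧ Φ T = τ := by
  let g3 : Fin 3 → P := ![π ga, π gb, τ]
  have he : ∀ f : F, FreeGroup.lift g3 (emb f) = π f := by
    intro f
    have : (FreeGroup.lift g3).comp emb = π := by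
      ext i
      fin_cases i
      · simp [emb, g3, ga]
      · simp [emb, g3, gb]
    rw [← this]; rfl
  have hr : ∀ r ∈ ({rel} : Set (FreeGroup (Fin 3))), FreeGroup.lift g3 r = 1 := by
    intro r hr
    rw [Set.mem_singleton_iff] at hr
    subst hr
    unfold rel
    rw [map_mul, map_mul, map_mul, map_inv, map_inv, he, he, mul_inv_eq_one]
    have : FreeGroup.lift g3 (FreeGroup.of 2) = τ := by
      rw [FreeGroup.lift_apply_of]; rfl
    rw [this, h]
  refine ⟨PresentedGroup.toGroup hr, fun f => ?_, ?_⟩
  · exact he f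
  · change FreeGroup.lift g3 (FreeGroup.of 2) = τ
    rw [FreeGroup.lift_apply_of]; rfl

/-- values of words -/
def W (f : ℕ → F) (e : ℕ → Bool) : ℕ → G
  | 0 => ph (f 0)
  | n + 1 => ph (f (n + 1)) * (if e n then T else T⁻¹) * W f e n

/-- reducedness -/
def Red (f : ℕ → F) (e : ℕ → Bool) (n : ℕ) : Prop :=
  ∀ k, k + 1 < n → (e k = false → e (k + 1) = true → f (k + 1) ∉ Subgroup.zpowers ga) ∧
    (e k = true → e (k + 1) = false → f (k + 1) ∉ Subgroup.zpowers gw)

theorem W_congr {f f' : ℕ → F} {e e' : ℕ → Bool} (n : ℕ) (hf : ∀ k ≤ n, f k = f' k)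
    (he : ∀ k < n, e k = e' k) : W f e n = W f' e' n := by
  induction n with
  | zero => simp only [W]; rw [hf 0 le_rfl]
  | succ n ih =>
    simp only [W]
    rw [ih (fun k hk => hf k (by omega)) (fun k hk => he k (by omega)), hf (n + 1) le_rfl,
      he n (by omega)]

/-- the set of elements with a reduced expression -/
def HasRed (g : G) : Prop := ∃ n f e, Red f e n ∧ W f e n = g

theorem hasRed_one : HasRed 1 :=
  ⟨0, fun _ => 1, fun _ => true, fun k hk => by omega, by simp [W]⟩

theorem hasRed_ph (x : F) (g : G) (hg : HasRed g) : HasRed (ph x * g) := by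
  obtain ⟨n, f, e, hr, rfl⟩ := hg
  refine ⟨n, Function.update f n (x * f n), e, ?_, ?_⟩
  · intro k hk
    rw [Function.update_of_ne (by omega)]
    exact hr k hk
  · cases n with
    | zero => simp [W]
    | succ n =>
      simp only [W]
      rw [Function.update_self, map_mul, W_congr (f' := f) (e' := e) n
        (fun k hk => Function.update_of_ne (by omega) _ _) (fun k _ => rfl)]
      simp only [mul_assoc]

theorem T_pow (m : ℤ) : T * ph (ga ^ m) * T⁻¹ = ph (gw ^ m) := by
  rw [map_zpow, map_zpow, ← T_rel, conj_zpow]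

theorem T_pow' (m : ℤ) : T⁻¹ * ph (gw ^ m) * T = ph (ga ^ m) := by
  rw [← T_pow]; group

/-- pushing a stable letter in front of a reduced word -/
theorem hasRed_T (b : Bool) (g : G) (hg : HasRed g) : HasRed ((if b then T else T⁻¹) * g) := by
  obtain ⟨n, f, e, hr, rfl⟩ := hg
  -- appending
  have happ : (∀ k, k + 1 = n → (e k = false → b = true → f (k + 1) ∉ Subgroup.zpowers ga) ∧
      (e k = true → b = false → f (k + 1) ∉ Subgroup.zpowers gw)) →
      HasRed ((if b then T else T⁻¹) * W f e n) := by
    intro hend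
    refine ⟨n + 1, Function.update f (n + 1) 1, Function.update e n b, ?_, ?_⟩
    · intro k hk
      rw [Function.update_of_ne (show k + 1 ≠ n + 1 by omega),
        Function.update_of_ne (show k ≠ n by omega)]
      by_cases hkn : k + 1 = n
      · rw [hkn, Function.update_self, ← hkn]
        exact hend k hkn
      · rw [Function.update_of_ne hkn]
        exact hr k (by omega)
    · simp only [W]
      rw [Function.update_self, Function.update_self, map_one, one_mul,
        W_congr (f' := f) (e' := e) n (fun k hk => Function.update_of_ne (by omega) _ _)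
        (fun k hk => Function.update_of_ne (by omega) _ _)]
  rcases n with _ | n
  · exact happ (fun k hk => by omega)
  · by_cases h1 : e n = false ∧ b = true ∧ f (n + 1) ∈ Subgroup.zpowers ga
    · obtain ⟨he, hb, m, hm⟩ := h1
      have hm' : f (n + 1) = ga ^ m := hm.symm
      have : (if b then T else T⁻¹) * W f e (n + 1) = ph (gw ^ m) * W f e n := by
        simp only [W]
        rw [he, hb, hm', if_pos rfl, ← T_pow]
        simp [mul_assoc]
      rw [this]
      exact hasRed_ph _ _ ⟨n, f, e, fun k hk => hr k (by omega), rfl⟩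
    · by_cases h2 : e n = true ∧ b = false ∧ f (n + 1) ∈ Subgroup.zpowers gw
      · obtain ⟨he, hb, m, hm⟩ := h2
        have hm' : f (n + 1) = gw ^ m := hm.symm
        have : (if b then T else T⁻¹) * W f e (n + 1) = ph (ga ^ m) * W f e n := by
          simp only [W]
          rw [he, hb, hm', if_pos rfl, ← T_pow']
          simp [mul_assoc]
        rw [this]
        exact hasRed_ph _ _ ⟨n, f, e, fun k hk => hr k (by omega), rfl⟩
      · apply happ
        intro k hk
        have hkn : k = n := by omega
        subst hkn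
        exact ⟨fun he hb hm => h1 ⟨he, hb, hm⟩, fun he hb hm => h2 ⟨he, hb, hm⟩⟩

theorem hasRed_all (g : G) : HasRed g := by
  obtain ⟨x, rfl⟩ := PresentedGroup.mk_surjective _ g
  obtain ⟨L, rfl⟩ := Quot.exists_rep x
  change HasRed (pr (FreeGroup.mk L))
  induction L with
  | nil => exact hasRed_one
  | cons s L ih =>
    obtain ⟨i, b⟩ := s
    have hx : FreeGroup.mk ((i, b) :: L) = FreeGroup.mk [(i, b)] * FreeGroup.mk L := by
      rw [FreeGroup.mul_mk]; rfl
    rw [hx, map_mul]
    have hof : ∀ j : Fin 3, FreeGroup.mk [(j, true)] = FreeGroup.of j := fun j => rfl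
    have hofi : ∀ j : Fin 3, FreeGroup.mk [(j, false)] = (FreeGroup.of j)⁻¹ := fun j => rfl
    have e0 : (FreeGroup.of 0 : FreeGroup (Fin 3)) = emb ga := by simp [emb, ga]
    have e1 : (FreeGroup.of 1 : FreeGroup (Fin 3)) = emb gb := by simp [emb, gb]
    fin_cases i
    · cases b
      · change HasRed (pr (FreeGroup.mk [(0, false)]) * _)
        rw [hofi, e0, ← map_inv]
        exact hasRed_ph ga⁻¹ _ ih
      · change HasRed (pr (FreeGroup.mk [(0, true)]) * _)
        rw [hof, e0]
        exact hasRed_ph ga _ ih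
    · cases b
      · change HasRed (pr (FreeGroup.mk [(1, false)]) * _)
        rw [hofi, e1, ← map_inv]
        exact hasRed_ph gb⁻¹ _ ih
      · change HasRed (pr (FreeGroup.mk [(1, true)]) * _)
        rw [hof, e1]
        exact hasRed_ph gb _ ih
    · cases b
      · change HasRed (pr (FreeGroup.mk [(2, false)]) * _)
        rw [hofi, map_inv]
        exact hasRed_T false _ ih
      · change HasRed (pr (FreeGroup.mk [(2, true)]) * _)
        rw [hof]
        exact hasRed_T true _ ih

end Q33.RF
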