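import Pool.Agent.Q33.RF.Sep

/-!
Reduced words survive in a finite quotient.
-/

namespace Q33.RF

/-- left multiplication on the first coordinate -/
def lam (P N : Type) [Group P] : P →* Equiv.Perm (P × N) where
  toFun g :=
    { toFun := fun x => (g * x.1, x.2)
      invFun := fun x => (g⁻¹ * x.1, x.2)
      left_inv := fun x => by simp
      right_inv := fun x => by simp }
  map_one' := by
    ext x
    · simp
    · rfl
  map_mul' g h := by
    ext x
    · simp [mul_assoc]
    · rfl

theorem lam_apply {P N : Type} [Group P] (g : P) (x : P × N) : lam P N g x = (g * x.1, x.2) := rfl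

theorem lam_pow {P N : Type} [Group P] (g : P) (k : ℕ) (x : P × N) :
    ((lam P N g) ^ k) x = (g ^ k * x.1, x.2) := by
  rw [← map_pow]; rfl

theorem mem_zp {P : Type} [Group P] (g x : P) (j j' : ℕ) (h : g ^ j * x = g ^ j') :
    x ∈ Subgroup.zpowers g := by
  have : x = (g ^ j)⁻¹ * g ^ j' := by rw [← h]; group
  rw [this]
  exact Subgroup.mul_mem _ (Subgroup.inv_mem _ (Subgroup.npow_mem_zpowers _ _))
    (Subgroup.npow_mem_zpowers _ _)

theorem pow_inj {P : Type} [Group P] (g : P) (M : ℕ) (h : ∀ k, 0 < k → k < M → g ^ k ≠ 1)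
    (j j' : Fin M) (hj : g ^ (j : ℕ) = g ^ (j' : ℕ)) : j = j' := by
  have key : ∀ a b : Fin M, (a : ℕ) < b → g ^ (a : ℕ) ≠ g ^ (b : ℕ) := by
    intro a b hab he
    refine h ((b : ℕ) - a) (by omega) (by omega) ?_
    rw [pow_sub _ hab.le, he, mul_inv_cancel]
  rcases lt_trichotomy (j : ℕ) j' with h1 | h1 | h1
  · exact absurd hj (key _ _ h1)
  · exact Fin.ext h1
  · exact absurd hj.symm (key _ _ h1)

/-- the injectivity used below. -/
theorem starts_inj {P : Type} [Group P] (g : P) (M : ℕ) (hne : ∀ k, 0 < k → k < M → g ^ k ≠ 1)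
    (n : ℕ) (q : ℕ → P) (s : Fin n → Bool)
    (hs : ∀ k k' : Fin n, (k' : ℕ) = k + 1 → s k = false → s k' = true →
      q k' ∉ Subgroup.zpowers g) :
    Function.Injective (fun p : Fin n × Fin M => ((lam P (Fin (n + 1)) g) ^ (p.2 : ℕ))
      (if s p.1 = true then (q p.1, p.1.castSucc) else (1, p.1.succ))) := by
  have cross : ∀ (k k' : Fin n) (j j' : Fin M), (k : ℕ) < k' →
      ((lam P (Fin (n + 1)) g) ^ (j : ℕ))
        (if s k = true then (q k, k.castSucc) else (1, k.succ)) ≠
      ((lam P (Fin (n + 1)) g) ^ (j' : ℕ))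
        (if s k' = true then (q k', k'.castSucc) else (1, k'.succ)) := by
    intro k k' j j' hkk' h
    rw [lam_pow, lam_pow] at h
    have h1 := congrArg (fun x => (x.2 : ℕ)) h
    have h2 := congrArg (fun x => x.1) h
    by_cases hk : s k = true
    · rw [if_pos hk] at h1
      by_cases hk' : s k' = true
      · rw [if_pos hk'] at h1
        simp at h1
        omega
      · rw [if_neg hk'] at h1
        simp at h1
        omega
    · rw [if_neg hk] at h1 h2
      by_cases hk' : s k' = true
      · rw [if_pos hk'] at h1 h2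
        simp at h1
        simp only [mul_one] at h2
        exact hs k k' h1.symm (by simpa using hk) hk' (mem_zp g _ _ _ h2.symm)
      · rw [if_neg hk'] at h1
        simp at h1
        omega
  rintro ⟨k, j⟩ ⟨k', j'⟩ h
  simp only at h
  rcases lt_trichotomy (k : ℕ) k' with h1 | h1 | h1
  · exact absurd h (cross _ _ _ _ h1)
  · have h2 : k = k' := Fin.ext h1
    subst h2
    rw [lam_pow, lam_pow] at h
    have h3 := congrArg (fun x => x.1) h
    simp only [mul_left_inj] at h3
    rw [pow_inj g M hne j j' h3]
  · exact absurd h.symm (cross _ _ _ _ h1)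

/-- Reduced words survive. -/
theorem survive (n : ℕ) (f : ℕ → F) (e : ℕ → Bool) (hr : Red f e n) (h0 : n = 0 → f 0 ≠ 1) :
    ∃ (P : Type) (_ : Group P) (_ : Finite P) (Φ : G →* P), Φ (W f e n) ≠ 1 := by
  obtain ⟨P, i1, i2, π, M, hM, ha, hw, hane, hwne, hsep⟩ := quot f n
  set σ := lam P (Fin (n + 1)) (π ga) with hσ
  set σ' := lam P (Fin (n + 1)) (π gw) with hσ'
  let x : Fin n → P × Fin (n + 1) := fun k =>
    if e k = true then (π (f k), k.castSucc) else (1, k.succ)
  let y : Fin n → P × Fin (n + 1) := fun k =>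
    if (!e k) = true then (π (f k), k.castSucc) else (1, k.succ)
  have hx := starts_inj (π ga) M hane n (fun k => π (f k)) (fun k => e k) (by
    intro k k' hk h1 h2
    have := ((hr k (by omega)).1 h1 (by rw [← hk]; exact h2))
    rw [hk]
    exact (hsep (k + 1) (by omega)).2.1 this)
  have hy := starts_inj (π gw) M hwne n (fun k => π (f k)) (fun k => !e k) (by
    intro k k' hk h1 h2
    have h1' : e k = true := by simpa using h1
    have h2' : e k' = false := by simpa using h2
    have := ((hr k (by omega)).2 h1' (by rw [← hk]; exact h2'))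
    rw [hk]
    exact (hsep (k + 1) (by omega)).2.2 this)
  obtain ⟨τ, hτ1, hτ2⟩ := extend M hM σ σ' (by rw [hσ, ← map_pow, ha, map_one])
    (by rw [hσ', ← map_pow, hw, map_one])
    (by
      intro z k hk hkM h
      rw [hσ, lam_pow] at h
      exact hane k hk hkM (by simpa using congrArg Prod.fst h))
    (by
      intro z k hk hkM h
      rw [hσ', lam_pow] at h
      exact hwne k hk hkM (by simpa using congrArg Prod.fst h))
    (Nat.card (P × Fin (n + 1))) (Fin n) x y (by omega) hx hy
  obtain ⟨Φ, hΦ1, hΦ2⟩ := exists_lift ((lam P (Fin (n + 1))).comp π) τ (by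
    ext1 z
    obtain ⟨z, rfl⟩ := τ.surjective z
    have hz : τ⁻¹ (τ z) = z := τ.symm_apply_apply z
    rw [Equiv.Perm.mul_apply, Equiv.Perm.mul_apply, hz]
    exact hτ1 z)
  refine ⟨Equiv.Perm (P × Fin (n + 1)), inferInstance, inferInstance, Φ, ?_⟩
  have path : ∀ k (hk : k ≤ n), Φ (W f e k) (1, 0) = (π (f k), ⟨k, by omega⟩) := by
    intro k
    induction k with
    | zero =>
      intro hk
      simp only [W]
      rw [hΦ1]
      change (π (f 0) * 1, (0 : Fin (n + 1))) = _
      rw [mul_one]; rfl
    | succ k ih =>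
      intro hk
      have h1 := ih (by omega)
      simp only [W]
      rw [map_mul, map_mul, Equiv.Perm.mul_apply, Equiv.Perm.mul_apply, h1, hΦ1]
      have h2 : Φ (if e k = true then T else T⁻¹) (π (f k), ⟨k, by omega⟩) =
          (1, ⟨k + 1, by omega⟩) := by
        have h3 := hτ2 ⟨k, by omega⟩
        by_cases hek : e k = true
        · rw [if_pos hek, hΦ2]
          simp only [x, y, hek] at h3
          simpa using h3
        · have hek' : e k = false := by simpa using hek
          rw [if_neg hek, map_inv, hΦ2, Equiv.Perm.inv_eq_iff_eq]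
          simp only [x, y, hek'] at h3
          simpa using h3.symm
      rw [h2]
      change (π (f (k + 1)) * 1, _) = _
      rw [mul_one]
  intro h1
  have h2 := path n le_rfl
  rw [h1] at h2
  simp only [Equiv.Perm.coe_one, id_eq, Prod.mk.injEq] at h2
  obtain ⟨h3, h4⟩ := h2
  have h5 : n = 0 := by
    have := congrArg Fin.val h4
    simpa using this.symm
  subst h5
  exact (hsep 0 le_rfl).1 (h0 rfl) h3.symm

/-- Residual finiteness. -/
theorem resFin (g : G) (hg : g ≠ 1) :
    ∃ (P : Type) (_ : Group P) (_ : Finite P) (Φ : G →* P), Φ g ≠ 1 := by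
  obtain ⟨n, f, e, hr, rfl⟩ := hasRed_all g
  apply survive n f e hr
  rintro rfl h
  apply hg
  simp only [W]
  rw [h, map_one]

theorem a_ne : ph ga ≠ 1 := by
  intro h
  obtain ⟨P, i1, i2, Φ, hΦ⟩ := survive 0 (fun _ => ga) (fun _ => true) (fun k hk => by omega)
    (fun _ h => by
      have := congrArg FreeGroup.toWord h
      simp [ga] at this)
  apply hΦ
  simp only [W]
  rw [h, map_one]

/-- `a` lies in every term of the derived series. -/
theorem a_mem (k : ℕ) : ph ga ∈ derivedSeries G k := by
  induction k with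
  | zero => simp
  | succ k ih =>
    have h1 : ph (gb⁻¹ * ga * gb) ∈ derivedSeries G k := by
      rw [map_mul, map_mul, map_inv]
      have := (derivedSeries_normal G k).conj_mem _ ih (ph gb)⁻¹
      simpa using this
    have h2 : ph gw ∈ derivedSeries G (k + 1) := by
      rw [derivedSeries_succ]
      have := Subgroup.commutator_mem_commutator ih h1
      rw [commutatorElement_def] at this
      have e : ph gw = ph ga * ph (gb⁻¹ * ga * gb) * (ph ga)⁻¹ * (ph (gb⁻¹ * ga * gb))⁻¹ := by
        unfold gw
        simp only [map_mul, map_inv]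
      rw [e]; exact this
    have h3 : ph ga = T⁻¹ * ph gw * T := by rw [← T_rel]; group
    rw [h3]
    have := (derivedSeries_normal G (k + 1)).conj_mem _ h2 T⁻¹
    simpa using this

end Q33.RF
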