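import Pool.Agent.Q33.RF.Group

/-!
Finite quotients of the free group of rank two.
-/

namespace Q33.RF

/-- finitely many nontrivial elements survive in a finite quotient -/
theorem sep_list (L : List F) (hL : ∀ x ∈ L, x ≠ 1) :
    ∃ (Q : Type) (_ : Group Q) (_ : Finite Q) (π : F →* Q), ∀ x ∈ L, π x ≠ 1 := by
  induction L with
  | nil => exact ⟨Unit, inferInstance, inferInstance, 1, by simp⟩
  | cons y L ih =>
    obtain ⟨Q, i1, i2, π, h⟩ := ih fun x hx => hL x (List.mem_cons_of_mem _ hx)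
    obtain ⟨Q', i1', i2', π', _, h'⟩ := Pool.Agent.Helper867.PF.free_res y (hL y (by simp))
    refine ⟨Q × Q', inferInstance, inferInstance, π.prod π', ?_⟩
    intro x hx
    rcases List.mem_cons.mp hx with rfl | hx
    · intro h1
      exact h' (congrArg Prod.snd h1)
    · intro h1
      exact h x hx (congrArg Prod.fst h1)

/-- the function with constant second difference -/
def qs (p : ℤ) : ℤ := p * (p - 1) / 2

theorem two_qs (p : ℤ) : 2 * qs p = p * (p - 1) := by
  unfold qs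
  obtain ⟨k, hk⟩ : Even (p * (p - 1)) := Int.even_mul_pred_self p
  rw [hk]
  omega

theorem qs_diff (p : ℤ) : qs p - 2 * qs (p - 1) + qs (p - 2) = 1 := by
  have h1 := two_qs p
  have h2 := two_qs (p - 1)
  have h3 := two_qs (p - 2)
  nlinarith

/-- the action of `a` on the integer plane -/
def pa : Equiv.Perm (ℤ × ℤ) where
  toFun x := (x.1 + 1, x.2)
  invFun x := (x.1 - 1, x.2)
  left_inv x := by simp
  right_inv x := by simp

/-- the action of `b` on the integer plane -/
def pb : Equiv.Perm (ℤ × ℤ) where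
  toFun x := (x.1, x.2 + qs x.1)
  invFun x := (x.1, x.2 - qs x.1)
  left_inv x := by simp
  right_inv x := by simp

/-- the action on the integer plane -/
def pl : F →* Equiv.Perm (ℤ × ℤ) := FreeGroup.lift ![pa, pb]

theorem pl_a : pl ga = pa := by simp [pl, ga]

theorem pl_b : pl gb = pb := by simp [pl, gb]

theorem pl_w (p r : ℤ) : pl gw (p, r) = (p, r + 1) := by
  unfold gw
  simp only [map_mul, map_inv, pl_a, pl_b, mul_inv_rev, inv_inv, Equiv.Perm.mul_apply]
  have e1 : ∀ x : ℤ × ℤ, pa x = (x.1 + 1, x.2) := fun x => rfl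
  have e2 : ∀ x : ℤ × ℤ, pa⁻¹ x = (x.1 - 1, x.2) := fun x => rfl
  have e3 : ∀ x : ℤ × ℤ, pb x = (x.1, x.2 + qs x.1) := fun x => rfl
  have e4 : ∀ x : ℤ × ℤ, pb⁻¹ x = (x.1, x.2 - qs x.1) := fun x => rfl
  simp only [e1, e2, e3, e4]
  have h := qs_diff p
  have e5 : p - 1 - 1 = p - 2 := by ring
  rw [e5]
  ext
  · simp only; ring
  · simp only
    ring_nf at h ⊢
    linarith

/-- shape of the permutations -/
theorem pl_shape (g : F) : ∃ (m : ℤ) (h : ℤ → ℤ), ∀ p r, pl g (p, r) = (p + m, r + h p) := by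
  induction g using FreeGroup.induction_on with
  | C1 => exact ⟨0, fun _ => 0, fun p r => by simp⟩
  | of i =>
    fin_cases i
    · refine ⟨1, fun _ => 0, fun p r => ?_⟩
      change pl ga (p, r) = _
      rw [pl_a]
      change (p + 1, r) = _
      simp
    · refine ⟨0, fun p => qs p, fun p r => ?_⟩
      change pl gb (p, r) = _
      rw [pl_b]
      change (p, r + qs p) = _
      simp
  | inv_of i ih =>
    obtain ⟨m, h, hm⟩ := ih
    refine ⟨-m, fun p => -h (p - m), fun p r => ?_⟩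
    rw [map_inv, Equiv.Perm.inv_eq_iff_eq, hm]
    simp only [Prod.mk.injEq]
    constructor
    · ring
    · rw [← sub_eq_add_neg]; ring
  | mul x y hx hy =>
    obtain ⟨m, h, hm⟩ := hx
    obtain ⟨m', h', hm'⟩ := hy
    refine ⟨m' + m, fun p => h' p + h (p + m'), fun p r => ?_⟩
    rw [map_mul, Equiv.Perm.mul_apply, hm', hm]
    simp only [Prod.mk.injEq]
    constructor <;> ring

theorem pl_pow (g : F) (m : ℤ) (h : ℤ → ℤ) (hg : ∀ p r, pl g (p, r) = (p + m, r + h p)) (n : ℕ) :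
    ∃ h' : ℤ → ℤ, (m = 0 → ∀ p, h' p = n * h p) ∧ ∀ p r, pl (g ^ n) (p, r) = (p + n * m, r + h' p) := by
  induction n with
  | zero => exact ⟨fun _ => 0, by simp, by simp⟩
  | succ n ih =>
    obtain ⟨h', h1, h2⟩ := ih
    refine ⟨fun p => h' p + h (p + n * m), ?_, ?_⟩
    · intro hm p
      subst hm
      simp only [mul_zero, add_zero]
      rw [h1 rfl p]
      push_cast; ring
    · intro p r
      rw [pow_succ', map_mul, Equiv.Perm.mul_apply, h2, hg]
      simp only [Prod.mk.injEq]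
      push_cast
      constructor <;> ring

/-- `w` is not a proper power. -/
theorem w_root (u : F) (k : ℤ) (h : gw = u ^ k) : k = 1 ∨ k = -1 := by
  have key : ∀ (v : F) (n : ℕ), gw = v ^ n → n = 1 := by
    intro v n hv
    obtain ⟨m, h, hm⟩ := pl_shape v
    obtain ⟨h', h1, h2⟩ := pl_pow v m h hm n
    rw [← hv] at h2
    have h3 := h2 0 0
    rw [pl_w] at h3
    simp only [Prod.mk.injEq, zero_add] at h3
    obtain ⟨h4, h5⟩ := h3
    have hn : n ≠ 0 := by
      rintro rfl
      rw [pow_zero] at hv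
      have := pl_w 0 0
      rw [hv, map_one] at this
      simp at this
    have hm0 : m = 0 := by
      have : (n : ℤ) * m = 0 := h4.symm
      rcases mul_eq_zero.mp this with h6 | h6
      · exact absurd (by exact_mod_cast h6) hn
      · exact h6
    rw [h1 hm0] at h5
    have h7 : (n : ℤ) ∣ 1 := ⟨_, h5⟩
    have := Int.isUnit_iff.mp (isUnit_of_dvd_one h7)
    omega
  obtain ⟨n, rfl | rfl⟩ := k.eq_nat_or_neg
  · left
    rw [zpow_natCast] at h
    rw [key u n h]; rfl
  · right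
    have h' : gw = (u⁻¹) ^ n := by
      rw [h, zpow_neg, zpow_natCast, inv_pow]
    rw [key _ n h']; rfl

theorem cent_w (f : F) (h : Commute f gw) : f ∈ Subgroup.zpowers gw := by
  obtain ⟨r, i, j, hi, hj⟩ := Pool.Agent.H26R2.exists_root h
  rcases w_root r j hj with rfl | rfl
  · rw [zpow_one] at hj
    rw [hi, ← hj]
    exact ⟨i, rfl⟩
  · refine ⟨-i, ?_⟩
    simp only
    rw [hj, hi]
    group

theorem cent_a (f : F) (h : Commute f ga) : f ∈ Subgroup.zpowers ga := by
  obtain ⟨i, hi⟩ := Pool.Agent.H26R2.mem_zpowers_of_commute h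
    (FreeGroup.lift ![Multiplicative.ofAdd 1, 1]) (by simp [ga])
  exact ⟨i, hi.symm⟩

theorem comm_of_mem {Q : Type} [Group Q] {x y : Q} (h : x ∈ Subgroup.zpowers y) : Commute x y := by
  obtain ⟨k, rfl⟩ := h
  exact (Commute.refl y).zpow_left k

theorem comm_iff {Q : Type} [Group Q] (x y : Q) : x * y * x⁻¹ * y⁻¹ = 1 ↔ Commute x y := by
  rw [mul_inv_eq_one, mul_inv_eq_iff_eq_mul]
  rfl

/-- the separation statement -/
theorem sep (f : ℕ → F) (n : ℕ) :
    ∃ (Q : Type) (_ : Group Q) (_ : Finite Q) (π : F →* Q), ∀ k ≤ n,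
      (f k ≠ 1 → π (f k) ≠ 1) ∧ (f k ∉ Subgroup.zpowers ga → π (f k) ∉ Subgroup.zpowers (π ga)) ∧
      (f k ∉ Subgroup.zpowers gw → π (f k) ∉ Subgroup.zpowers (π gw)) := by
  classical
  obtain ⟨Q, i1, i2, π, h⟩ := sep_list
    (((List.range (n + 1)).map f ++ (List.range (n + 1)).map (fun k => f k * ga * (f k)⁻¹ * ga⁻¹) ++
      (List.range (n + 1)).map (fun k => f k * gw * (f k)⁻¹ * gw⁻¹)).filter (· ≠ 1)) (by
      intro x hx
      simpa using (List.mem_filter.mp hx).2)
  have h' : ∀ x : F, x ∈ ((List.range (n + 1)).map f ++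
      (List.range (n + 1)).map (fun k => f k * ga * (f k)⁻¹ * ga⁻¹) ++
      (List.range (n + 1)).map (fun k => f k * gw * (f k)⁻¹ * gw⁻¹)) → x ≠ 1 → π x ≠ 1 := by
    intro x hx hx1
    exact h x (List.mem_filter.mpr ⟨hx, by simpa using hx1⟩)
  refine ⟨Q, i1, i2, π, fun k hk => ⟨?_, ?_, ?_⟩⟩
  · intro h1
    refine h' _ ?_ h1
    simp only [List.mem_append, List.mem_map, List.mem_range]
    exact Or.inl (Or.inl ⟨k, by omega, rfl⟩)
  · intro h1 h2
    refine h' (f k * ga * (f k)⁻¹ * ga⁻¹) ?_ ?_ ?_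
    · simp only [List.mem_append, List.mem_map, List.mem_range]
      exact Or.inl (Or.inr ⟨k, by omega, rfl⟩)
    · intro h3
      exact h1 (cent_a _ ((comm_iff _ _).mp h3))
    · rw [map_mul, map_mul, map_mul, map_inv, map_inv, comm_iff]
      exact comm_of_mem h2
  · intro h1 h2
    refine h' (f k * gw * (f k)⁻¹ * gw⁻¹) ?_ ?_ ?_
    · simp only [List.mem_append, List.mem_map, List.mem_range]
      exact Or.inr ⟨k, by omega, rfl⟩
    · intro h3
      exact h1 (cent_w _ ((comm_iff _ _).mp h3))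
    · rw [map_mul, map_mul, map_mul, map_inv, map_inv, comm_iff]
      exact comm_of_mem h2

section absorb

variable (M : ℕ)

/-- the set on which the second quotient acts -/
abbrev XM : Type := ZMod M × ZMod M × ZMod M

/-- the action of `a` -/
def qa : Equiv.Perm (XM M) where
  toFun x := (x.1 + 1, x.2.1, x.2.2)
  invFun x := (x.1 - 1, x.2.1, x.2.2)
  left_inv x := by simp
  right_inv x := by simp

/-- the action of `b` -/
def qb : Equiv.Perm (XM M) where
  toFun x := (x.2.1, x.1, x.2.2 - x.1 * x.2.1)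
  invFun x := (x.2.1, x.1, x.2.2 + x.1 * x.2.1)
  left_inv x := by
    ext
    · rfl
    · rfl
    · simp only; ring
  right_inv x := by
    ext
    · rfl
    · rfl
    · simp only; ring

/-- the second quotient -/
def ql : F →* Equiv.Perm (XM M) := FreeGroup.lift ![qa M, qb M]

theorem ql_a : ql M ga = qa M := by simp [ql, ga]

theorem ql_b : ql M gb = qb M := by simp [ql, gb]

theorem ql_w (x : XM M) : ql M gw x = (x.1, x.2.1, x.2.2 - 1) := by
  unfold gw
  simp only [map_mul, map_inv, ql_a, ql_b, mul_inv_rev, inv_inv, Equiv.Perm.mul_apply]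
  have e1 : ∀ x : XM M, qa M x = (x.1 + 1, x.2.1, x.2.2) := fun x => rfl
  have e2 : ∀ x : XM M, (qa M)⁻¹ x = (x.1 - 1, x.2.1, x.2.2) := fun x => rfl
  have e3 : ∀ x : XM M, qb M x = (x.2.1, x.1, x.2.2 - x.1 * x.2.1) := fun x => rfl
  have e4 : ∀ x : XM M, (qb M)⁻¹ x = (x.2.1, x.1, x.2.2 + x.1 * x.2.1) := fun x => rfl
  simp only [e1, e2, e3, e4]
  ext
  · simp only; ring
  · simp only; ring
  · simp only; ring

theorem qa_pow (k : ℕ) (x : XM M) : ((qa M) ^ k) x = (x.1 + k, x.2.1, x.2.2) := by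
  induction k with
  | zero => simp
  | succ k ih =>
    rw [pow_succ', Equiv.Perm.mul_apply, ih]
    change (x.1 + k + 1, x.2.1, x.2.2) = _
    push_cast
    rw [add_assoc]

theorem qw_pow (k : ℕ) (x : XM M) : ((ql M gw) ^ k) x = (x.1, x.2.1, x.2.2 - k) := by
  induction k with
  | zero => simp
  | succ k ih =>
    rw [pow_succ', Equiv.Perm.mul_apply, ih, ql_w]
    push_cast
    ext
    · rfl
    · rfl
    · simp only; ring

theorem qa_one : (ql M ga) ^ M = 1 := by
  rw [ql_a]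
  ext x <;> rw [qa_pow] <;> simp

theorem qw_one : (ql M gw) ^ M = 1 := by
  ext x <;> rw [qw_pow] <;> simp

theorem qa_ne (k : ℕ) (h0 : 0 < k) (hk : k < M) : (ql M ga) ^ k ≠ 1 := by
  intro h
  rw [ql_a] at h
  have h1 := qa_pow M k 0
  rw [h] at h1
  have h2 := congrArg Prod.fst h1
  simp only [Equiv.Perm.coe_one, id_eq, Prod.fst_zero, zero_add] at h2
  have h3 := (ZMod.natCast_eq_zero_iff k M).mp h2.symm
  have := Nat.le_of_dvd h0 h3
  omega

theorem qw_ne (k : ℕ) (h0 : 0 < k) (hk : k < M) : (ql M gw) ^ k ≠ 1 := by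
  intro h
  have h1 := qw_pow M k 0
  rw [h] at h1
  have h2 := congrArg (fun x => x.2.2) h1
  simp only [Equiv.Perm.coe_one, id_eq, Prod.snd_zero, zero_sub] at h2
  have h4 : (k : ZMod M) = 0 := by
    have := congrArg Neg.neg h2
    simpa using this.symm
  have h3 := (ZMod.natCast_eq_zero_iff k M).mp h4
  have := Nat.le_of_dvd h0 h3
  omega

end absorb

/-- the combined quotient -/
theorem quot (f : ℕ → F) (n : ℕ) :
    ∃ (P : Type) (_ : Group P) (_ : Finite P) (π : F →* P) (M : ℕ), 0 < M ∧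
      (π ga) ^ M = 1 ∧ (π gw) ^ M = 1 ∧ (∀ k, 0 < k → k < M → (π ga) ^ k ≠ 1) ∧
      (∀ k, 0 < k → k < M → (π gw) ^ k ≠ 1) ∧ ∀ k ≤ n,
      (f k ≠ 1 → π (f k) ≠ 1) ∧ (f k ∉ Subgroup.zpowers ga → π (f k) ∉ Subgroup.zpowers (π ga)) ∧
      (f k ∉ Subgroup.zpowers gw → π (f k) ∉ Subgroup.zpowers (π gw)) := by
  obtain ⟨Q, i1, i2, π, h⟩ := sep f n
  set M := Nat.card Q with hM
  have hM0 : 0 < M := Nat.card_pos
  have : NeZero M := ⟨hM0.ne'⟩
  have hpow : ∀ q : Q, q ^ M = 1 := fun q => pow_card_eq_one'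
  refine ⟨Q × Equiv.Perm (XM M), inferInstance, inferInstance, π.prod (ql M), M, hM0, ?_, ?_, ?_,
    ?_, ?_⟩
  · ext1
    · exact hpow _
    · exact qa_one M
  · ext1
    · exact hpow _
    · exact qw_one M
  · intro k h0 hk h1
    exact qa_ne M k h0 hk (congrArg Prod.snd h1)
  · intro k h0 hk h1
    exact qw_ne M k h0 hk (congrArg Prod.snd h1)
  · intro k hk
    obtain ⟨h1, h2, h3⟩ := h k hk
    refine ⟨fun h4 h5 => h1 h4 (congrArg Prod.fst h5), fun h4 h5 => h2 h4 ?_,
      fun h4 h5 => h3 h4 ?_⟩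
    · obtain ⟨j, hj⟩ := h5
      exact ⟨j, congrArg Prod.fst hj⟩
    · obtain ⟨j, hj⟩ := h5
      exact ⟨j, congrArg Prod.fst hj⟩

end Q33.RF
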